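import Pool.Agent.helper60.MW.Spec

/-!
# Row LVS of project MW (MP_f477b1_co): from level `i` to level `i + 1`
-/

set_option autoImplicit false

namespace Pool.Agent.MW

open MeasureTheory Set Pool.Agent.helper17.Worm

theorem LVS_mono (ℓ ℓ' : ℝ) (A : Set ℂ) (h : Cv ℓ A) (hl : ℓ ≤ ℓ') : Cv ℓ' A := by
  obtain ⟨h0, f, hf, hA⟩ := h
  exact ⟨h0.trans hl, f, hf, hA.trans (image_mono (Icc_subset_Icc_right hl))⟩

theorem LVS (hSTP : STP_stmt) (hSEQ : SEQ_stmt) (hINF : INF_stmt) : LVS_stmt := by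
  classical
  intro ι _ X hX hvol κ a P m p G i hκ hκ2 ha ha8 hP hi hnum hLev
  obtain ⟨⟨haa0, hmm0⟩, haa, hmm, hkk, haapos, haale, -, hsum, hss, hss1, hssb, hhh, -⟩ :=
    hSEQ κ a P m hκ hκ2 ha hP
  obtain ⟨ι', _, p', N, hcard, hpN, hnorm, hcost, hG⟩ := hLev
  have ha2 : aa P a i ≤ 1 / 8 := by
    refine (haale i).trans ((div_le_self ha.le ?_).trans ha8)
    exact one_le_pow₀ (by norm_num)
  have hn3 : ∀ l, ‖p' l‖ ≤ 3 := by
    intro l
    have h1 := hnorm l
    have h2 := hsum i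
    linarith
  obtain ⟨p'', hp'', hG''⟩ := hSTP ι' X hX hvol (kk P i) (2 * kk P (i + 1)) 1 p' (aa P a i)
    (aa P a (i + 1)) (ss κ i) (hh κ i) G (hkk i) (by have := hkk (i + 1); omega) le_rfl
    (haapos _) (haa i) (by linarith) hn3 (hssb i).1 (hhh i) (hss1 i)
    (by rw [hcard, one_mul]; exact hnum)
    (by
      intro g hg
      obtain ⟨l, hl⟩ := hG g hg
      unfold nbad
      refine Finset.card_pos.2 ⟨l, ?_⟩
      rw [Finset.mem_filter]
      exact ⟨Finset.mem_univ _, hl⟩)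
  refine ⟨ι' × Fin (kk P i), inferInstance, p'', N ∪ Finset.univ.image p'', ?_, ?_, ?_, ?_, ?_⟩
  · rw [Fintype.card_prod, hcard, Fintype.card_fin, hmm]
  · intro l
    exact Finset.mem_union_right _ (Finset.mem_image_of_mem _ (Finset.mem_univ _))
  · intro l
    have h1 := hnorm l.1
    have h2 := hp'' l
    have h3 : ‖p'' l‖ ≤ ‖p'' l - p' l.1‖ + ‖p' l.1‖ := by
      have := norm_add_le (p'' l - p' l.1) (p' l.1)
      rwa [sub_add_cancel] at this
    rw [Finset.sum_range_succ]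
    linarith
  · intro ℓ A hA hpA
    have h1 := hcost ℓ A hA hpA
    have h2 := hINF (ι' × Fin (kk P i)) _ (A ∪ N) (fun e => p' e.1) p'' h1
      (fun e => Or.inr (hpN e.1))
    have hs : ∑ e : ι' × Fin (kk P i), ‖p'' e - p' e.1‖ ≤
        (mm P m i : ℝ) * kk P i * (3 / 2 * aa P a i) := by
      refine (Finset.sum_le_card_nsmul Finset.univ _ (3 / 2 * aa P a i) fun e _ => hp'' e).trans ?_
      rw [Finset.card_univ, Fintype.card_prod, hcard, Fintype.card_fin, nsmul_eq_mul]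
      push_cast
      exact le_rfl
    have h3 := LVS_mono _ (ℓ + 3 * ∑ j ∈ Finset.range (i + 1),
      (mm P m j : ℝ) * kk P j * aa P a j) _ h2 (by
        rw [Finset.sum_range_succ]
        linarith)
    have hset : A ∪ ((N ∪ Finset.univ.image p'' : Finset ℂ) : Set ℂ) = A ∪ N ∪ range p'' := by
      rw [Finset.coe_union, Finset.coe_image, Finset.coe_univ, image_univ, union_assoc]
    rw [hset]
    exact h3
  · intro g hg
    obtain ⟨e, he⟩ := hG'' g hg
    refine ⟨e, ?_⟩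
    rw [hss]
    exact he

end Pool.Agent.MW
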